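import Pool.Agent.W353.FB.Final

/-!
Project FD (helper139): Bessel's inequality with the second moment, for generalised mean values over
the primes of a number field.
-/

set_option autoImplicit false

namespace Pool.Agent.Y139.FD

open Complex Filter Topology ComplexConjugate NumberField IsDedekindDomain
  Pool.Agent.W401.Cheb Pool.Agent.W540.BE Pool.Agent.W353.L1 Pool.Agent.W353.AT
  Pool.Agent.W353.SP

section
variable {K : Type} [Field K] [NumberField K] {ι : Type} {l : Filter ι}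
  {E : ι → (HeightOneSpectrum (𝓞 K) → ℝ) → ℝ}

theorem rr0 {n : ℕ} (χ : Representation ℂ (GK K) (Fin n → ℂ))
    (σ : HeightOneSpectrum (𝓞 K) → GK K) (v : HeightOneSpectrum (𝓞 K)) :
    RR χ 0 σ v = (χ.character (σ v)⁻¹).re := by
  unfold RR zz
  rw [Complex.ofReal_zero, zero_mul, neg_zero, Complex.cpow_zero, mul_one]

/-- **Bessel's inequality with the second moment.** -/
theorem bessel2 [l.NeBot] (h : Mn l E) (U : Subgroup (GK K)) [U.Normal]
    (hU : IsOpen (U : Set (GK K))) [Finite (GK K ⧸ U)] {κ : Type*} (S : Finset κ) {n : κ → ℕ}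
    (χ : ∀ k, Representation ℂ (GK K) (Fin (n k) → ℂ)) (hχ : ∀ k, ∀ u ∈ U, χ k u = 1)
    (σ : HeightOneSpectrum (𝓞 K) → GK K) (hσ : ∀ v, IsFrob v (σ v))
    {T : HeightOneSpectrum (𝓞 K) → ℝ} {M : ℝ} (hM : Hs l E (fun v => T v ^ 2) M)
    (hirr : ∀ k ∈ S, (χ k).IsIrreducible)
    (hne : ∀ k ∈ S, ∀ k' ∈ S, k ≠ k' → IsEmpty ((χ k).Equiv (χ k'))) {y : κ → ℝ}
    (hy : ∀ k ∈ S, Hs l E (fun v => T v * RR (χ k) 0 σ v) (y k)) :
    ∑ k ∈ S, (y k) ^ 2 ≤ M := by
  classical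
  set Y : ℝ := ∑ k ∈ S, (y k) ^ 2 with hY
  set g : HeightOneSpectrum (𝓞 K) → ℂ := fun v => ∑ k ∈ S, (y k : ℂ) *
    (χ k).character (σ v)⁻¹ with hg
  have hWg : ∀ v, ∑ k ∈ S, y k * RR (χ k) 0 σ v = (g v).re := by
    intro v
    rw [hg]
    simp only
    rw [Complex.re_sum]
    refine Finset.sum_congr rfl fun k _ => ?_
    rw [Complex.re_ofReal_mul, rr0]
  have hgg : ∀ v, ‖g v‖ ^ 2 = ∑ k ∈ S, ∑ k' ∈ S, y k * y k' *
      ((χ k).character (σ v)⁻¹ * conj ((χ k').character (σ v)⁻¹)).re := by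
    intro v
    have h1 : (‖g v‖ ^ 2 : ℝ) = (g v * conj (g v)).re := by
      rw [Complex.mul_conj, Complex.normSq_eq_norm_sq, Complex.ofReal_re]
    rw [h1, hg]
    simp only
    rw [map_sum, Finset.sum_mul_sum, Complex.re_sum]
    refine Finset.sum_congr rfl fun k _ => ?_
    rw [Complex.re_sum]
    refine Finset.sum_congr rfl fun k' _ => ?_
    have h2 : (y k : ℂ) * (χ k).character (σ v)⁻¹ *
        conj ((y k' : ℂ) * (χ k').character (σ v)⁻¹) =
        ((y k * y k' : ℝ) : ℂ) *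
          ((χ k).character (σ v)⁻¹ * conj ((χ k').character (σ v)⁻¹)) := by
      rw [map_mul, Complex.conj_ofReal]
      push_cast
      ring
    rw [h2, Complex.re_ofReal_mul]
  have hmean : Hs l E (fun v => ‖g v‖ ^ 2) Y := by
    have h1 := h.hsSum S fun k hk => h.hsSum S fun k' hk' =>
      h.hsMul (h.ortho U hU χ hχ σ hσ (hirr k hk) (hirr k' hk')) (y k * y k')
    refine h1.congr (fun v => (hgg v).symm) ?_
    rw [hY]
    refine Finset.sum_congr rfl fun k hk => ?_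
    rw [Finset.sum_eq_single k]
    · rw [if_pos ⟨Representation.Equiv.refl _⟩]
      ring
    · intro k' hk' hkk
      rw [if_neg (not_nonempty_iff.2 (hne k hk k' hk' (Ne.symm hkk))), mul_zero]
    · intro hk'
      exact absurd hk hk'
  have hL : Hs l E (fun v => T v * ∑ k ∈ S, y k * RR (χ k) 0 σ v) Y := by
    refine (h.hsSum S fun k hk => h.hsMul (hy k hk) (y k)).congr (fun v => ?_) ?_
    · rw [Finset.mul_sum]
      exact Finset.sum_congr rfl fun k _ => by ring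
    · exact Finset.sum_congr rfl fun k _ => by ring
  have hR : Hs l E (fun v => T v ^ 2 + ‖g v‖ ^ 2) (M + Y) := h.hsAdd hM hmean
  have hL2 : Hs l E (fun v => 2 * (T v * ∑ k ∈ S, y k * RR (χ k) 0 σ v)) (2 * Y) := h.hsMul hL 2
  have hle : 2 * Y ≤ M + Y := by
    refine Hs.le h hL2 hR fun v => ?_
    rw [hWg]
    have h1 : |(g v).re| ≤ ‖g v‖ := Complex.abs_re_le_norm _
    have h2 : (g v).re ^ 2 ≤ ‖g v‖ ^ 2 := by
      rw [← sq_abs (g v).re]
      exact pow_le_pow_left₀ (abs_nonneg _) h1 2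
    nlinarith [sq_nonneg (T v - (g v).re)]
  linarith

/-- mean values of the squares of the real and imaginary part of a character -/
theorem re_im (h : Mn l E) {n : ℕ} {χ : Representation ℂ (GK K) (Fin n → ℂ)} (hA : IsArtin χ)
    (hi : χ.IsIrreducible) (σ : HeightOneSpectrum (𝓞 K) → GK K) (hσ : ∀ v, IsFrob v (σ v)) :
    ∃ c : ℝ, c ≤ 1 ∧ Hs l E (fun v => RR χ 0 σ v ^ 2) c ∧
      (c = 1 → ∀ g, (χ.character g).im = 0) := by
  classical
  obtain ⟨U, hUn, hU, hx1⟩ := exists_common (κ := Unit) (n := fun _ => n)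
    (fun _ => χ) fun _ => hA
  have hfin : Finite (GK K ⧸ U) := Subgroup.quotient_finite_of_isOpen U hU
  let _ : Fintype (GK K ⧸ U) := Fintype.ofFinite _
  obtain ⟨f, hf⟩ : ∃ f : GK K ⧸ U → ℂ, f = (chF U (fun _ : Unit => χ) hx1 ()).f := ⟨_, rfl⟩
  have fcls : ∀ a g, f (g * a * g⁻¹) = f a := by
    rw [hf]; exact (chF U (fun _ : Unit => χ) hx1 ()).cls
  have fmk : ∀ g : GK K, f (QuotientGroup.mk g) = χ.character g⁻¹ := by
    intro g
    rw [hf]
    rfl
  have hn := avC_ortho U (fun _ : Unit => χ) hx1 (k := ()) (l := ()) hi hi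
  rw [if_pos ⟨Representation.Equiv.refl _⟩] at hn
  rw [← hf] at hn
  obtain ⟨c, hc⟩ : ∃ c, c = avR U fun q => (f q).re ^ 2 := ⟨_, rfl⟩
  obtain ⟨c', hc'⟩ : ∃ c', c' = avR U fun q => (f q).im ^ 2 := ⟨_, rfl⟩
  have hsum : c + c' = 1 := by
    have e1 : (fun q => f q * conj (f q)) = fun q => (((f q).re ^ 2 + (f q).im ^ 2 : ℝ) : ℂ) := by
      funext q
      rw [Complex.mul_conj, Complex.normSq_apply]
      push_cast
      ring
    rw [e1, avC_ofReal] at hn
    have h2 : avR U (fun q => (f q).re ^ 2 + (f q).im ^ 2) = 1 := by exact_mod_cast hn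
    rw [hc, hc', ← h2]
    unfold avR
    rw [finsum_eq_sum_of_fintype, finsum_eq_sum_of_fintype, finsum_eq_sum_of_fintype,
      Finset.sum_add_distrib]
    ring
  have hc0 : 0 ≤ c' := by
    rw [hc']
    unfold avR
    rw [finsum_eq_sum_of_fintype]
    exact mul_nonneg (by positivity) (Finset.sum_nonneg fun q _ => sq_nonneg _)
  refine ⟨c, by linarith, ?_, fun h1 g => ?_⟩
  · have h2 := h.cheb U hU (fun q => (((f q).re ^ 2 : ℝ) : ℂ)) (fun a g => by
      simp only [fcls]) c (by rw [avC_ofReal, ← hc]) σ hσ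
    refine ⟨?_, h2.congr fun i => ?_⟩
    · obtain ⟨B, hB⟩ := Bd.mul (bd_RR (x := ⟨n, χ⟩) hA σ) (bd_RR (x := ⟨n, χ⟩) hA σ)
      refine ⟨B, fun v => ?_⟩
      show |RR χ 0 σ v ^ 2| ≤ B
      rw [sq]
      exact hB v
    · congr 1
      funext v
      rw [Complex.ofReal_re, fmk, rr0]
  · have h2 : c' = 0 := by linarith
    rw [hc'] at h2
    unfold avR at h2
    rw [finsum_eq_sum_of_fintype] at h2
    have hcard : (0 : ℝ) < (Nat.card (GK K ⧸ U) : ℝ)⁻¹ :=
      inv_pos.2 (by exact_mod_cast Nat.card_pos)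
    have h3 := (mul_eq_zero.1 h2).resolve_left hcard.ne'
    have h4 := (Finset.sum_eq_zero_iff_of_nonneg fun q _ => sq_nonneg (f q).im).1 h3
      (QuotientGroup.mk g⁻¹) (Finset.mem_univ _)
    have h5 := pow_eq_zero_iff (two_ne_zero) |>.1 h4
    rw [fmk, inv_inv] at h5
    exact h5

/-- **Rigidity.** -/
theorem rigid [l.NeBot] (h : Mn l E) {n : ℕ} {χ : Representation ℂ (GK K) (Fin n → ℂ)}
    (hA : IsArtin χ) (hi : χ.IsIrreducible) (σ : HeightOneSpectrum (𝓞 K) → GK K)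
    (hσ : ∀ v, IsFrob v (σ v)) {T : HeightOneSpectrum (𝓞 K) → ℝ} (hT : Bd T) {M y : ℝ}
    (hM : Hs l E (fun v => T v ^ 2) M) (M1 : M ≤ 1) (hy : y = 1 ∨ y = -1)
    (hTy : Hs l E (fun v => T v * RR χ 0 σ v) y) :
    M = 1 ∧ (∀ g, (χ.character g).im = 0) ∧
      Hs l E (fun v => (T v - y * RR χ 0 σ v) ^ 2) 0 := by
  obtain ⟨c, c1, hc, hreal⟩ := re_im h hA hi σ hσ
  have yy : y * y = 1 := by rcases hy with h | h <;> rw [h] <;> norm_num
  have h1 : Hs l E (fun v => (T v - y * RR χ 0 σ v) ^ 2) (M - 2 + c) := by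
    have h2 := h.hsAdd (h.hsAdd hM (h.hsMul hTy (-2 * y))) (h.hsMul hc (y * y))
    refine h2.congr (fun v => by ring) ?_
    have e : M + -2 * y * y + y * y * c = M - 2 * (y * y) + (y * y) * c := by ring
    rw [e, yy]; ring
  have h3 : 0 ≤ M - 2 + c := Hs.le h h.hsZero h1 fun v => sq_nonneg _
  have hcc : c = 1 := by linarith
  have hMM : M = 1 := by linarith
  refine ⟨hMM, hreal hcc, h1.congr (fun _ => rfl) ?_⟩
  rw [hcc, hMM]; norm_num

end

end Pool.Agent.Y139.FD
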