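import Pool.Agent.W353.FB.Defs

/-!
Project FD (helper139): the second moment of the values of a fibration off the algebraic part.
-/

set_option autoImplicit false

namespace Pool.Agent.Y139.FD

open NumberField IsDedekindDomain Filter Topology
open Pool.Agent.W353.FB (LocalValue ValueAt IsTwistedSystem residue)
open Pool.Agent.W353.AT (IsFrobeniusElement twistRank)

section
variable {K : Type} [Field K] [NumberField K] {W : Type} [AddCommGroup W] [Module ℚ W]

/-- Off the finite set `R`, `b v` is the square of the difference of the value at the prime `v` of `K`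
and the trace of the geometric Frobenius on `W`. -/
def IsResidualSquare (P : LocalValue K) (ρ : Representation ℚ Gal(AlgebraicClosure K/K) W)
    (R : Finset (HeightOneSpectrum (𝓞 K))) (b : HeightOneSpectrum (𝓞 K) → ℝ) : Prop :=
  ∀ v, v ∉ R → ∃ z : ℝ, ValueAt P v z ∧ ∀ σ, IsFrobeniusElement v σ →
    b v = (z - ((LinearMap.trace ℚ W (ρ σ⁻¹) : ℚ) : ℝ)) ^ 2

/-- Off the finite set `R`, `b v` is the square of the difference of the value at the prime `v` of `K`
and the trace of the geometric Frobenius on `W` minus `y` times the real part of its character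
on `χ`. -/
def IsCorrectedSquare (P : LocalValue K) (ρ : Representation ℚ Gal(AlgebraicClosure K/K) W) {n : ℕ}
    (χ : Representation ℂ Gal(AlgebraicClosure K/K) (Fin n → ℂ)) (y : ℝ)
    (R : Finset (HeightOneSpectrum (𝓞 K))) (b : HeightOneSpectrum (𝓞 K) → ℝ) : Prop :=
  ∀ v, v ∉ R → ∃ z : ℝ, ValueAt P v z ∧ ∀ σ, IsFrobeniusElement v σ →
    b v = (z - (((LinearMap.trace ℚ W (ρ σ⁻¹) : ℚ) : ℝ) - y * (χ.character σ⁻¹).re)) ^ 2

/-- The Dirichlet series of the values twisted by `χ` has the residue `dim (W ⊗ χ)^G - y`: there are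
such values `b v`, and `(s - 1) ∑ b(v) (log q_v) q_v^{-s}` tends to `dim (W ⊗ χ)^G - y` for
`s → 1+`. -/
def HasDefect (P : LocalValue K) (ρ : Representation ℚ Gal(AlgebraicClosure K/K) W) {n : ℕ}
    (χ : Representation ℂ Gal(AlgebraicClosure K/K) (Fin n → ℂ)) (y : ℤ) : Prop :=
  ∃ (R : Finset (HeightOneSpectrum (𝓞 K))) (b : HeightOneSpectrum (𝓞 K) → ℝ),
    IsTwistedSystem P χ R b ∧
    Tendsto (residue R b) (𝓝[>] 1) (𝓝 ((twistRank ρ χ : ℝ) - y))

end

end Pool.Agent.Y139.FD
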