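import Pool.Agent.Y139.FD.A
import Pool.Agent.Y139.FD.Defs

/-!
Project FD (helper139): the spectral theorem with the second moment and the dichotomy.
-/

set_option autoImplicit false

namespace Pool.Agent.Y139.FD

open Complex Filter Topology ComplexConjugate NumberField IsDedekindDomain
  Pool.Agent.W401.Cheb Pool.Agent.W540.BE Pool.Agent.W353.L1 Pool.Agent.W353.AT
  Pool.Agent.W353.SP Pool.Agent.W353.FB
open Pool.Agent.H921R2.TatePole (kerPrime)
open Pool.Agent.H126U (VX mem_VX)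
open Pool.Agent.H126U.ST Pool.Agent.H126U.JT Pool.Agent.H126V.Taub Pool.Agent.H126V.FC
open Pool.Agent.W353.NF (act fixn fixn_le vx)
open Pool.Agent.W353.TD (ch rank)
open Pool.Agent.W353.TP (HX res)

section
variable {K : Type} [Field K] [NumberField K] {W : Type} [AddCommGroup W] [Module ℚ W]
  [FiniteDimensional ℚ W] {ρ : Representation ℚ (GK K) W} {P : LocalValue K} {N : ℕ}

theorem fixedDim_congr {x y : MRep (GK K)} (h : Sim x y)
    (F : IntermediateField K (AlgebraicClosure K)) : fixedDim x.2 F = fixedDim y.2 F := by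
  obtain ⟨e⟩ := h
  unfold fixedDim
  have key : ∀ (g : GK K) (v : Fin x.1 → ℂ),
      e.toLinearEquiv (x.2 g v) = y.2 g (e.toLinearEquiv v) := fun g v =>
    Representation.IntertwiningMap.isIntertwining _ _ e.toIntertwiningMap g v
  have le : (Representation.invariants (x.2.comp F.fixingSubgroup.subtype)).map
      (e.toLinearEquiv : (Fin x.1 → ℂ) →ₗ[ℂ] (Fin y.1 → ℂ)) =
      Representation.invariants (y.2.comp F.fixingSubgroup.subtype) := by
    ext w
    constructor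
    · rintro ⟨v, hv, rfl⟩ g
      show y.2 g.1 (e.toLinearEquiv v) = e.toLinearEquiv v
      rw [← key]
      congr 1
      exact hv g
    · intro hw
      refine ⟨e.toLinearEquiv.symm w, fun g => ?_, e.toLinearEquiv.apply_symm_apply w⟩
      apply e.toLinearEquiv.injective
      show e.toLinearEquiv (x.2 g.1 (e.toLinearEquiv.symm w)) = _
      rw [key, e.toLinearEquiv.apply_symm_apply]
      exact hw g
  rw [← le]
  exact (LinearEquiv.finrank_map_eq _ _).symm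

omit [FiniteDimensional ℚ W] in
/-- bounded off the exceptional set -/
theorem bdOff_of {g b : HeightOneSpectrum (𝓞 K) → ℝ} {R : Finset (HeightOneSpectrum (𝓞 K))}
    (hg : Bd g) (hev : ∀ᶠ v in cofinite, v ∉ R → b v = g v) : BdOff R b := by
  classical
  obtain ⟨B, hB⟩ := hg
  have hfin := hev
  rw [Filter.eventually_cofinite] at hfin
  refine ⟨|B| + ∑ v ∈ hfin.toFinset, |b v|, by positivity, fun v hv => ?_⟩
  by_cases h : b v = g v
  · rw [h]
    have h1 : |g v| ≤ |B| := (hB v).trans (le_abs_self B)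
    have h2 : 0 ≤ ∑ v ∈ hfin.toFinset, |b v| := Finset.sum_nonneg fun _ _ => abs_nonneg _
    linarith
  · have h1 : v ∈ hfin.toFinset := by
      rw [Set.Finite.mem_toFinset, Set.mem_ofPred_eq]
      exact fun hcon => h (hcon hv)
    have h2 : |b v| ≤ ∑ v ∈ hfin.toFinset, |b v| :=
      Finset.single_le_sum (f := fun v => |b v|) (fun v _ => abs_nonneg _) h1
    have h3 := abs_nonneg B
    linarith

omit [FiniteDimensional ℚ W] in
/-- from the mean value to the residue -/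
theorem conv {g b : HeightOneSpectrum (𝓞 K) → ℝ} {R : Finset (HeightOneSpectrum (𝓞 K))}
    (hg : Bd g) (hev : ∀ᶠ v in cofinite, v ∉ R → b v = g v) {e : ℕ → ℝ}
    (he : Tendsto e atTop (𝓝[>] 1)) {a : ℝ} (h : Tendsto (fun j => EA K (e j) g) atTop (𝓝 a)) :
    Tendsto (fun j => residue R b (e j)) atTop (𝓝 a) := by
  have h7 := DS_diff (bdOff_of hg hev) hg hg hev (by simp)
  have h9 := (h7.comp he).add h
  rw [zero_add] at h9
  refine h9.congr fun j => ?_
  rw [Function.comp_apply, residue_eq, sub_add_cancel]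

/-- the data -/
structure Dat (P : LocalValue K) (ρ : Representation ℚ (GK K) W)
    (σ : HeightOneSpectrum (𝓞 K) → GK K) (t : HeightOneSpectrum (𝓞 K) → ℝ) : Prop where
  hσ : ∀ v, IsFrob v (σ v)
  ht : Bd t
  htv : ∀ᶠ v in cofinite, ValueAt P v (t v)
  hT : Bd fun v => ch ρ (σ v)⁻¹ - t v

omit [FiniteDimensional ℚ W] in
theorem bd_ch (hρ : ∃ U : Subgroup (GK K), IsOpen (U : Set (GK K)) ∧ ∀ u ∈ U, ρ u = 1)
    (σ : HeightOneSpectrum (𝓞 K) → GK K) : Bd fun v => ch ρ (σ v)⁻¹ := by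
  classical
  obtain ⟨U, hU, hu⟩ := hρ
  have hfin : Finite (GK K ⧸ U) := Subgroup.quotient_finite_of_isOpen U hU
  let _ : Fintype (GK K ⧸ U) := Fintype.ofFinite _
  have hq : ∀ g : GK K, ρ (QuotientGroup.mk g : GK K ⧸ U).out = ρ g := by
    intro g
    have h1 : (QuotientGroup.mk (QuotientGroup.mk g : GK K ⧸ U).out : GK K ⧸ U) =
        QuotientGroup.mk g := QuotientGroup.out_eq' _
    have h2 := QuotientGroup.eq.1 h1.symm
    have h3 := hu _ h2
    rw [map_mul] at h3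
    have h4 : ρ g * (ρ g⁻¹ * ρ (QuotientGroup.mk g : GK K ⧸ U).out) = ρ g * 1 := by rw [h3]
    rw [← mul_assoc, ← map_mul, mul_inv_cancel, map_one, one_mul, mul_one] at h4
    exact h4
  refine ⟨∑ q : GK K ⧸ U, |ch ρ q.out|, fun v => ?_⟩
  have e : ch ρ (σ v)⁻¹ = ch ρ (QuotientGroup.mk (σ v)⁻¹ : GK K ⧸ U).out := by
    unfold ch
    rw [hq]
  show |ch ρ (σ v)⁻¹| ≤ _
  rw [e]
  exact Finset.single_le_sum (f := fun q : GK K ⧸ U => |ch ρ q.out|)
    (fun q _ => abs_nonneg _) (Finset.mem_univ _)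

/-- **The spectral theorem with the second moment.** -/
theorem spec2 (hP : IsPartOf P N ρ) {σ : HeightOneSpectrum (𝓞 K) → GK K}
    {t : HeightOneSpectrum (𝓞 K) → ℝ} (D : Dat P ρ σ t)
    (hts : ∀ η : ℝ, 0 < η → ∀ᶠ v in cofinite,
        |t v - ch ρ (σ v)⁻¹| ≤ ((N - Module.finrank ℚ W : ℕ) : ℝ) + η)
    {e : ℕ → ℝ} (he : Tendsto e atTop (𝓝[>] 1)) :
    ∃ φ : ℕ → ℕ, StrictMono φ ∧
      ∃ (δF : IntermediateField K (AlgebraicClosure K) → ℝ) (δA : MRep (GK K) → ℝ) (M : ℝ),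
      (∀ (F : IntermediateField K (AlgebraicClosure K)) [NumberField F],
        Hs atTop (fun j => EA K (e (φ j))) (fun v => t v * fixn K F (σ v)) (rank ρ F - δF F)) ∧
      (∀ x, IsArtin x.2 → Hs atTop (fun j => EA K (e (φ j)))
        (fun v => (ch ρ (σ v)⁻¹ - t v) * RR x.2 0 σ v) (δA x)) ∧
      (∀ (F : IntermediateField K (AlgebraicClosure K)) [NumberField F],
        ∃ S : Finset (MRep (GK K)), (∀ p ∈ S, Irr p) ∧
          (∀ p ∈ S, ∀ q ∈ S, p ≠ q → ¬ Sim p q) ∧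
          (∀ x, Irr x → (∀ p ∈ S, ¬ Sim x p) → fixedDim x.2 F = 0) ∧
          δF F = ∑ p ∈ S, δA p * fixedDim p.2 F) ∧
      Hs atTop (fun j => EA K (e (φ j))) (fun v => (ch ρ (σ v)⁻¹ - t v) ^ 2) M ∧
      ∀ S : Finset (MRep (GK K)), (∀ p ∈ S, Irr p) →
        (∀ p ∈ S, ∀ q ∈ S, p ≠ q → ¬ Sim p q) → ∑ p ∈ S, (δA p) ^ 2 ≤ M := by
  classical
  obtain ⟨φ, hφ, δF, δA, h1, h2, -, h4, -, -⟩ :=
    spectralT (mnA K) D.ht hP.1 (N - Module.finrank ℚ W) σ D.hσ hts he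
  have hT2 : Bd fun v => (ch ρ (σ v)⁻¹ - t v) ^ 2 := by
    obtain ⟨B, hB⟩ := D.hT.mul D.hT
    refine ⟨B, fun v => ?_⟩
    show |(ch ρ (σ v)⁻¹ - t v) ^ 2| ≤ B
    rw [sq]
    exact hB v
  have he' : Tendsto (fun j => e (φ j)) atTop (𝓝[>] 1) := he.comp hφ.tendsto_atTop
  obtain ⟨B, hB⟩ := hT2
  have hb := he'.eventually ((mnA K).bound hB)
  -- a convergent subsequence
  obtain ⟨M, -, ψ, hψ, hM⟩ := (isCompact_Icc (a := -(2 * |B|)) (b := 2 * |B|)).tendsto_subseq'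
    (x := fun j => EA K (e (φ j)) fun v => (ch ρ (σ v)⁻¹ - t v) ^ 2)
    (hb.mono fun j hj => abs_le.1 hj).frequently
  have sub : ∀ {f : HeightOneSpectrum (𝓞 K) → ℝ} {a : ℝ},
      Hs atTop (fun j => EA K (e (φ j))) f a → Hs atTop (fun j => EA K (e ((φ ∘ ψ) j))) f a :=
    fun h => ⟨h.1, h.2.comp hψ.tendsto_atTop⟩
  have hmn : Mn atTop fun j => EA K (e ((φ ∘ ψ) j)) :=
    (mnA K).comp (he'.comp hψ.tendsto_atTop)
  have g2 : ∀ x, IsArtin x.2 → Hs atTop (fun j => EA K (e ((φ ∘ ψ) j)))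
      (fun v => (ch ρ (σ v)⁻¹ - t v) * RR x.2 0 σ v) (δA x) := by
    intro x hx
    have h5 := sub (h2 x hx)
    have h6 := hmn.twMean ρ hP.1 x hx σ D.hσ
    refine (hmn.hsAdd h6 (hmn.hsMul h5 (-1))).congr (fun v => by ring) (by ring)
  have gM : Hs atTop (fun j => EA K (e ((φ ∘ ψ) j))) (fun v => (ch ρ (σ v)⁻¹ - t v) ^ 2) M :=
    ⟨⟨B, hB⟩, hM⟩
  refine ⟨φ ∘ ψ, hφ.comp hψ, δF, δA, M, fun F _ => sub (h1 F), g2, h4, gM,
    fun S hS1 hS2 => ?_⟩
  obtain ⟨U, hUn, hU, hx⟩ := exists_common (κ := S) (n := fun k => k.1.1)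
    (fun k => k.1.2) fun k => (hS1 k.1 k.2).1
  have hfin : Finite (GK K ⧸ U) := Subgroup.quotient_finite_of_isOpen U hU
  have h3 := bessel2 hmn U hU (κ := S) Finset.univ (n := fun k => k.1.1) (fun k => k.1.2) hx σ
    D.hσ (T := fun v => ch ρ (σ v)⁻¹ - t v) gM
    (fun k _ => (hS1 k.1 k.2).2) (fun k _ k' _ hkk => not_nonempty_iff.1
      (hS2 k.1 k.2 k'.1 k'.2 fun h => hkk (Subtype.ext h)))
    (y := fun k => δA k.1) (fun k _ => g2 k.1 (hS1 k.1 k.2).1)
  rwa [Finset.sum_coe_sort S (fun p => (δA p) ^ 2)] at h3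

end

end Pool.Agent.Y139.FD
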