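import Pool.Agent.Y139.FD.B

/-!
Project FD (helper139): residues, Bessel's inequality and the dichotomy.
-/

set_option autoImplicit false

namespace Pool.Agent.Y139.FD

open Complex Filter Topology ComplexConjugate NumberField IsDedekindDomain
  Pool.Agent.W401.Cheb Pool.Agent.W540.BE Pool.Agent.W353.L1 Pool.Agent.W353.AT
  Pool.Agent.W353.SP Pool.Agent.W353.FB
open Pool.Agent.H921R2.TatePole (kerPrime)
open Pool.Agent.H126U (VX mem_VX)
open Pool.Agent.H126U.ST Pool.Agent.H126U.JT Pool.Agent.H126V.Taub Pool.Agent.H126V.FC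
open Pool.Agent.W353.NF (act fixn fixn_le vx)
open Pool.Agent.W353.TD (ch rank)
open Pool.Agent.W353.TP (HX res)

section
variable {K : Type} [Field K] [NumberField K] {W : Type} [AddCommGroup W] [Module ℚ W]
  [FiniteDimensional ℚ W] {ρ : Representation ℚ (GK K) W} {P : LocalValue K} {N : ℕ}
  {σ : HeightOneSpectrum (𝓞 K) → GK K} {t : HeightOneSpectrum (𝓞 K) → ℝ}

theorem exists_dat (hP : IsPartOf P N ρ) : ∃ (σ : HeightOneSpectrum (𝓞 K) → GK K)
    (t : HeightOneSpectrum (𝓞 K) → ℝ), Dat P ρ σ t ∧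
    ∀ η : ℝ, 0 < η → ∀ᶠ v in cofinite,
        |t v - ch ρ (σ v)⁻¹| ≤ ((N - Module.finrank ℚ W : ℕ) : ℝ) + η := by
  choose σ hσ using exists_isFrob (F := K)
  obtain ⟨t, ht, htv, hts⟩ := exists_t hP σ hσ
  refine ⟨σ, t, ⟨hσ, ht, htv, ?_⟩, hts⟩
  obtain ⟨B, hB⟩ := (bd_ch hP.1 σ).add ht.neg
  refine ⟨B, fun v => ?_⟩
  show |ch ρ (σ v)⁻¹ - t v| ≤ B
  rw [sub_eq_add_neg]
  exact hB v

/-- twisted values -/
theorem convTw (hu : Uniq P) (hρ : ∃ U : Subgroup (GK K), IsOpen (U : Set (GK K)) ∧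
    ∀ u ∈ U, ρ u = 1) (D : Dat P ρ σ t) {e : ℕ → ℝ} (he : Tendsto e atTop (𝓝[>] 1)) {k : ℕ}
    {χ : Representation ℂ (GK K) (Fin k → ℂ)} (hχ : IsArtin χ) {δ : ℝ}
    (h : Hs atTop (fun j => EA K (e j)) (fun v => (ch ρ (σ v)⁻¹ - t v) * RR χ 0 σ v) δ)
    {R : Finset (HeightOneSpectrum (𝓞 K))} {b : HeightOneSpectrum (𝓞 K) → ℝ}
    (hb : Pool.Agent.W353.FB.IsTwistedSystem P χ R b) :
    Tendsto (fun j => residue R b (e j)) atTop (𝓝 ((twistRank ρ χ : ℝ) - δ)) := by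
  obtain ⟨hbd, -, hev⟩ := exists_tw hu D.ht D.htv σ D.hσ hχ hb
  have hmn : Mn atTop fun j => EA K (e j) := (mnA K).comp he
  have h6 := hmn.twMean ρ hρ ⟨k, χ⟩ hχ σ D.hσ
  have h7 : Hs atTop (fun j => EA K (e j)) (fun v => t v * RR χ 0 σ v)
      ((twistRank ρ χ : ℝ) - δ) :=
    (hmn.hsAdd h6 (hmn.hsMul h (-1))).congr (fun v => by ring) (by ring)
  exact conv hbd hev he h7.2

/-- values over `F` -/
theorem convF (hu : Uniq P) (D : Dat P ρ σ t) {e : ℕ → ℝ} (he : Tendsto e atTop (𝓝[>] 1))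
    (F : IntermediateField K (AlgebraicClosure K)) [NumberField F] {a : ℝ}
    (h : Hs atTop (fun j => EA K (e j)) (fun v => t v * fixn K F (σ v)) a)
    {R : Finset (HeightOneSpectrum (𝓞 F))} {b : HeightOneSpectrum (𝓞 F) → ℝ}
    (hb : IsSystem P R b) : Tendsto (fun j => residue R b (e j)) atTop (𝓝 a) := by
  obtain ⟨a', ha, hbR, hba, hcomp⟩ := exists_a hu D.htv hb
  have h6 := EN_FT σ D.hσ D.ht ha hcomp
  have hg : Bd fun v => t v * (fixn K F (σ v) : ℝ) := D.ht.mul (bd_fixn σ)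
  have h7 := DS_diff hbR ha hg hba h6
  have h9 := (h7.comp he).add h.2
  rw [zero_add] at h9
  refine h9.congr fun j => ?_
  rw [Function.comp_apply, residue_eq, sub_add_cancel]

/-- squares -/
theorem evSq (hu : Uniq P) (D : Dat P ρ σ t) {R : Finset (HeightOneSpectrum (𝓞 K))}
    {b : HeightOneSpectrum (𝓞 K) → ℝ} (hb : IsResidualSquare P ρ R b) :
    ∀ᶠ v in cofinite, v ∉ R → b v = (ch ρ (σ v)⁻¹ - t v) ^ 2 := by
  filter_upwards [D.htv] with v hv hvR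
  obtain ⟨z, hz, hbz⟩ := hb v hvR
  rw [hbz (σ v) (D.hσ v), valueAt_unique hu hz hv]
  unfold ch
  ring

theorem evCorr (hu : Uniq P) (D : Dat P ρ σ t) {k : ℕ} {χ : Representation ℂ (GK K) (Fin k → ℂ)}
    {y : ℝ} {R : Finset (HeightOneSpectrum (𝓞 K))}
    {b : HeightOneSpectrum (𝓞 K) → ℝ} (hb : IsCorrectedSquare P ρ χ y R b) :
    ∀ᶠ v in cofinite, v ∉ R → b v = (ch ρ (σ v)⁻¹ - t v - y * RR χ 0 σ v) ^ 2 := by
  filter_upwards [D.htv] with v hv hvR
  obtain ⟨z, hz, hbz⟩ := hb v hvR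
  rw [hbz (σ v) (D.hσ v), valueAt_unique hu hz hv, rr0]
  unfold ch
  ring

/-- **Bessel's inequality for residues.** -/
theorem besselRes (hu : Uniq P) (hP : IsPartOf P N ρ) (κ : Type) [Fintype κ] (n : κ → ℕ)
    (χ : ∀ k, Representation ℂ (GK K) (Fin (n k) → ℂ)) (hA : ∀ k, IsArtin (χ k))
    (hirr : ∀ k, (χ k).IsIrreducible)
    (hne : ∀ k k', k ≠ k' → IsEmpty ((χ k).Equiv (χ k')))
    (R : κ → Finset (HeightOneSpectrum (𝓞 K))) (b : κ → HeightOneSpectrum (𝓞 K) → ℝ)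
    (hb : ∀ k, Pool.Agent.W353.FB.IsTwistedSystem P (χ k) (R k) (b k)) (R₂ : Finset (HeightOneSpectrum (𝓞 K)))
    (b₂ : HeightOneSpectrum (𝓞 K) → ℝ) (h₂ : IsResidualSquare P ρ R₂ b₂) {η : ℝ} (hη : 0 < η) :
    ∀ᶠ s in 𝓝[>] (1 : ℝ), ∑ k, (residue (R k) (b k) s - twistRank ρ (χ k)) ^ 2 ≤
      residue R₂ b₂ s + η := by
  classical
  by_contra hcon
  rw [Filter.not_eventually] at hcon
  obtain ⟨e, he, hlt⟩ := Filter.exists_seq_forall_of_frequently hcon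
  obtain ⟨σ, t, D, hts⟩ := exists_dat hP
  obtain ⟨φ, hφ, δF, δA, M, h1, h2, h3, h4, h5⟩ := spec2 hP D hts he
  have he' : Tendsto (fun j => e (φ j)) atTop (𝓝[>] 1) := he.comp hφ.tendsto_atTop
  have l1 : Tendsto (fun j => ∑ k, (residue (R k) (b k) (e (φ j)) - twistRank ρ (χ k)) ^ 2) atTop
      (𝓝 (∑ k, (δA ⟨n k, χ k⟩) ^ 2)) := by
    refine tendsto_finsetSum _ fun k _ => ?_
    have h6 := convTw hu hP.1 D he' (hA k) (h2 ⟨n k, χ k⟩ (hA k)) (hb k)
    have h7 := (h6.sub_const (twistRank ρ (χ k) : ℝ)).pow 2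
    have e1 : ((twistRank ρ (χ k) : ℝ) - δA ⟨n k, χ k⟩ - twistRank ρ (χ k)) ^ 2 =
        (δA ⟨n k, χ k⟩) ^ 2 := by ring
    rwa [e1] at h7
  have l2 : Tendsto (fun j => residue R₂ b₂ (e (φ j)) + η) atTop (𝓝 (M + η)) :=
    (conv h4.1 (evSq hu D h₂) he' h4.2).add_const η
  have l3 : M + η ≤ ∑ k, (δA ⟨n k, χ k⟩) ^ 2 :=
    le_of_tendsto_of_tendsto' l2 l1 fun j => (not_le.1 (hlt (φ j))).le
  set g : κ → MRep (GK K) := fun k => ⟨n k, χ k⟩ with hg
  have hinj : Function.Injective g := by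
    intro k k' hkk
    by_contra h
    have h6 : Sim (g k) (g k') := by
      rw [hkk]
      exact Sim.refl _
    exact (not_nonempty_iff.2 (hne k k' h)) h6
  have h6 := h5 (Finset.univ.image g) (fun p hp => by
      obtain ⟨k, -, rfl⟩ := Finset.mem_image.1 hp
      exact ⟨hA k, hirr k⟩) (fun p hp q hq hpq => by
      obtain ⟨k, -, rfl⟩ := Finset.mem_image.1 hp
      obtain ⟨k', -, rfl⟩ := Finset.mem_image.1 hq
      have h7 : k ≠ k' := fun h => hpq (by rw [h])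
      exact not_nonempty_iff.2 (hne k k' h7))
  rw [Finset.sum_image fun a _ b _ hab => hinj hab] at h6
  linarith

/-- **The dichotomy.** -/
theorem dicho (hu : Uniq P) (hP : IsPartOf P N ρ) (R₂ : Finset (HeightOneSpectrum (𝓞 K)))
    (b₂ : HeightOneSpectrum (𝓞 K) → ℝ) (h₂ : IsResidualSquare P ρ R₂ b₂) {M : ℝ} (M1 : M ≤ 1)
    (hM : Tendsto (residue R₂ b₂) (𝓝[>] 1) (𝓝 M))
    (H : ∀ (n : ℕ) (χ : Representation ℂ (GK K) (Fin n → ℂ)), IsArtin χ →
      χ.IsIrreducible → ∃ y : ℤ, HasDefect P ρ χ y) :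
    (∀ (F : IntermediateField K (AlgebraicClosure K)) [NumberField F]
      (R : Finset (HeightOneSpectrum (𝓞 F))) (b : HeightOneSpectrum (𝓞 F) → ℝ),
      IsSystem P R b → Tendsto (residue R b) (𝓝[>] 1) (𝓝 (rank ρ F : ℝ))) ∨
    ∃ (n : ℕ) (χ : Representation ℂ (GK K) (Fin n → ℂ)) (y : ℤ),
      IsArtin χ ∧ χ.IsIrreducible ∧ (∀ g, (χ.character g).im = 0) ∧ (y = 1 ∨ y = -1) ∧
      M = 1 ∧ HasDefect P ρ χ y ∧
      (∀ (n' : ℕ) (χ' : Representation ℂ (GK K) (Fin n' → ℂ)), IsArtin χ' →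
        χ'.IsIrreducible → IsEmpty (χ'.Equiv χ) → HasDefect P ρ χ' 0) ∧
      (∀ (F : IntermediateField K (AlgebraicClosure K)) [NumberField F]
        (R : Finset (HeightOneSpectrum (𝓞 F))) (b : HeightOneSpectrum (𝓞 F) → ℝ),
        IsSystem P R b →
        Tendsto (residue R b) (𝓝[>] 1) (𝓝 ((rank ρ F : ℝ) - y * fixedDim χ F))) ∧
      ∀ (R : Finset (HeightOneSpectrum (𝓞 K))) (b : HeightOneSpectrum (𝓞 K) → ℝ),
        IsCorrectedSquare P ρ χ y R b → Tendsto (residue R b) (𝓝[>] 1) (𝓝 0) := by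
  classical
  obtain ⟨σ, t, D, hts⟩ := exists_dat hP
  -- the limits along a subsequence
  have G : ∀ e : ℕ → ℝ, Tendsto e atTop (𝓝[>] 1) → ∃ φ : ℕ → ℕ, StrictMono φ ∧
      ∃ (δF : IntermediateField K (AlgebraicClosure K) → ℝ) (δA : MRep (GK K) → ℝ),
      (∀ (F : IntermediateField K (AlgebraicClosure K)) [NumberField F],
        Hs atTop (fun j => EA K (e (φ j))) (fun v => t v * fixn K F (σ v)) (rank ρ F - δF F)) ∧
      (∀ x, IsArtin x.2 → Hs atTop (fun j => EA K (e (φ j)))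
        (fun v => (ch ρ (σ v)⁻¹ - t v) * RR x.2 0 σ v) (δA x)) ∧
      (∀ (F : IntermediateField K (AlgebraicClosure K)) [NumberField F],
        ∃ S : Finset (MRep (GK K)), (∀ p ∈ S, Irr p) ∧
          (∀ p ∈ S, ∀ q ∈ S, p ≠ q → ¬ Sim p q) ∧
          (∀ x, Irr x → (∀ p ∈ S, ¬ Sim x p) → fixedDim x.2 F = 0) ∧
          δF F = ∑ p ∈ S, δA p * fixedDim p.2 F) ∧
      Hs atTop (fun j => EA K (e (φ j))) (fun v => (ch ρ (σ v)⁻¹ - t v) ^ 2) M ∧
      (∀ S : Finset (MRep (GK K)), (∀ p ∈ S, Irr p) →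
        (∀ p ∈ S, ∀ q ∈ S, p ≠ q → ¬ Sim p q) → ∑ p ∈ S, (δA p) ^ 2 ≤ M) ∧
      ∀ (x : MRep (GK K)), IsArtin x.2 → ∀ y : ℤ, HasDefect P ρ x.2 y → δA x = y := by
    intro e he
    obtain ⟨φ, hφ, δF, δA, M', h1, h2, h3, h4, h5⟩ := spec2 hP D hts he
    have he' : Tendsto (fun j => e (φ j)) atTop (𝓝[>] 1) := he.comp hφ.tendsto_atTop
    have hMM : M' = M :=
      tendsto_nhds_unique (conv h4.1 (evSq hu D h₂) he' h4.2) (hM.comp he')
    rw [hMM] at h4 h5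
    refine ⟨φ, hφ, δF, δA, h1, h2, h3, h4, h5, fun x hx y hy => ?_⟩
    obtain ⟨R, b, hb, hlim⟩ := hy
    have h6 := convTw hu hP.1 D he' hx (h2 x hx) hb
    have h7 := tendsto_nhds_unique h6 (hlim.comp he')
    linarith
  by_cases hz : ∀ (n : ℕ) (χ : Representation ℂ (GK K) (Fin n → ℂ)), IsArtin χ →
      χ.IsIrreducible → ∀ y : ℤ, HasDefect P ρ χ y → y = 0
  · left
    intro F _ R b hb
    refine tendsto_of_subseq_tendsto fun e he => ?_
    obtain ⟨φ, hφ, δF, δA, h1, h2, h3, h4, h5, h6⟩ := G e he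
    have he' : Tendsto (fun j => e (φ j)) atTop (𝓝[>] 1) := he.comp hφ.tendsto_atTop
    refine ⟨φ, ?_⟩
    have h7 := convF hu D he' F (h1 F) hb
    have h8 : δF F = 0 := by
      obtain ⟨S, s1, s2, s3, s4⟩ := h3 F
      rw [s4]
      refine Finset.sum_eq_zero fun p hp => ?_
      obtain ⟨y, hy⟩ := H p.1 p.2 (s1 p hp).1 (s1 p hp).2
      rw [h6 p (s1 p hp).1 y hy, hz p.1 p.2 (s1 p hp).1 (s1 p hp).2 y hy]
      simp
    rw [h8, sub_zero] at h7
    exact h7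
  · right
    push Not at hz
    obtain ⟨n, χ, hA, hi, y, hy, y0⟩ := hz
    have hne : Irr (K := K) ⟨n, χ⟩ := ⟨hA, hi⟩
    -- one sequence
    have he0 : Tendsto (fun j : ℕ => (1 : ℝ) + 1 / ((j : ℝ) + 1)) atTop (𝓝[>] 1) := by
      refine tendsto_nhdsWithin_iff.2 ⟨?_, Eventually.of_forall fun j => ?_⟩
      · have := (tendsto_one_div_add_atTop_nhds_zero_nat (𝕜 := ℝ)).const_add 1
        rwa [add_zero] at this
      · show (1 : ℝ) < 1 + 1 / ((j : ℝ) + 1)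
        have : (0 : ℝ) < 1 / ((j : ℝ) + 1) := by positivity
        linarith
    obtain ⟨φ, hφ, δF, δA, h1, h2, h3, h4, h5, h6⟩ := G _ he0
    have e1 : δA ⟨n, χ⟩ = y := h6 ⟨n, χ⟩ hA y hy
    have yy : (1 : ℝ) ≤ (y : ℝ) ^ 2 := by
      have h7 : 1 ≤ y ^ 2 := by
        have := sq_pos_of_ne_zero y0
        omega
      exact_mod_cast h7
    have b1 := h5 {⟨n, χ⟩} (fun p hp => by rw [Finset.mem_singleton.1 hp]; exact hne)
      (fun p hp q hq hpq => absurd ((Finset.mem_singleton.1 hp).trans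
        (Finset.mem_singleton.1 hq).symm) hpq)
    rw [Finset.sum_singleton, e1] at b1
    have y1 : y = 1 ∨ y = -1 := by
      have h7 : (y : ℝ) ^ 2 ≤ 1 := b1.trans M1
      have h8 : y ^ 2 ≤ 1 := by exact_mod_cast h7
      have h9 : y ≤ 1 := by nlinarith
      have h10 : -1 ≤ y := by nlinarith
      omega
    have y1' : (y : ℝ) = 1 ∨ (y : ℝ) = -1 := by
      rcases y1 with h | h <;> rw [h] <;> simp
    have other : ∀ (p : MRep (GK K)), Irr p → ¬ Sim p ⟨n, χ⟩ → ∀ y' : ℤ,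
        HasDefect P ρ p.2 y' → y' = 0 := by
      intro p hp hs y' hy'
      have h7 : p ≠ ⟨n, χ⟩ := fun h => hs (by rw [h]; exact Sim.refl _)
      have h8 := h5 {p, ⟨n, χ⟩} (fun q hq => by
        rcases Finset.mem_insert.1 hq with h | h
        · rw [h]; exact hp
        · rw [Finset.mem_singleton.1 h]; exact hne) (fun q hq q' hq' hqq => by
        rcases Finset.mem_insert.1 hq with h | h <;> rcases Finset.mem_insert.1 hq' with h' | h'
        · exact absurd (h.trans h'.symm) hqq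
        · rw [h, Finset.mem_singleton.1 h']; exact hs
        · rw [h', Finset.mem_singleton.1 h]; exact fun hh => hs hh.symm
        · exact absurd ((Finset.mem_singleton.1 h).trans (Finset.mem_singleton.1 h').symm) hqq)
      rw [Finset.sum_pair h7, e1, h6 p hp.1 y' hy'] at h8
      have h9 : (y' : ℝ) ^ 2 ≤ 0 := by linarith
      have h10 : (y' : ℝ) = 0 := by nlinarith [sq_nonneg (y' : ℝ)]
      exact_mod_cast h10
    have hmn0 : Mn atTop fun j => EA K ((1 : ℝ) + 1 / ((φ j : ℕ) + 1 : ℝ)) :=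
      (mnA K).comp (he0.comp hφ.tendsto_atTop)
    have r0 := rigid hmn0 hA hi σ D.hσ (T := fun v => ch ρ (σ v)⁻¹ - t v) D.hT h4 M1 y1'
      (by rw [← e1]; exact h2 ⟨n, χ⟩ hA)
    refine ⟨n, χ, y, hA, hi, r0.2.1, y1, r0.1, hy, fun n' χ' hA' hi' he' => ?_,
      fun F _ R b hb => ?_, fun R b hb => ?_⟩
    · obtain ⟨y', hy'⟩ := H n' χ' hA' hi'
      have h7 := other ⟨n', χ'⟩ ⟨hA', hi'⟩ (not_nonempty_iff.2 he') y' hy'
      rw [h7] at hy'
      exact hy'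
    · refine tendsto_of_subseq_tendsto fun e he => ?_
      obtain ⟨φ, hφ, δF, δA, h1, h2, h3, h4, h5, h6⟩ := G e he
      have he' : Tendsto (fun j => e (φ j)) atTop (𝓝[>] 1) := he.comp hφ.tendsto_atTop
      refine ⟨φ, ?_⟩
      have h7 := convF hu D he' F (h1 F) hb
      have h8 : δF F = y * fixedDim χ F := by
        obtain ⟨S, s1, s2, s3, s4⟩ := h3 F
        rw [s4]
        by_cases hS : ∃ p ∈ S, Sim ⟨n, χ⟩ p
        · obtain ⟨p, hp, hsp⟩ := hS
          rw [Finset.sum_eq_single_of_mem p hp fun q hq hqp => ?_]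
          · have h9 : δA p = δA ⟨n, χ⟩ :=
              (h2 p (s1 p hp).1).unique (h2 ⟨n, χ⟩ hA) fun v => by rw [hsp.RR]
            rw [h9, h6 ⟨n, χ⟩ hA y hy, fixedDim_congr hsp]
          · obtain ⟨y', hy'⟩ := H q.1 q.2 (s1 q hq).1 (s1 q hq).2
            have h9 := other q (s1 q hq) (fun hh => s2 q hq p hp hqp (hh.trans hsp)) y' hy'
            rw [h6 q (s1 q hq).1 y' hy', h9]
            simp
        · push Not at hS
          have h9 := s3 ⟨n, χ⟩ hne hS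
          have h9' : fixedDim χ F = 0 := h9
          rw [h9', Nat.cast_zero, mul_zero]
          refine Finset.sum_eq_zero fun q hq => ?_
          obtain ⟨y', hy'⟩ := H q.1 q.2 (s1 q hq).1 (s1 q hq).2
          have h10 := other q (s1 q hq) (fun hh => hS q hq hh.symm) y' hy'
          rw [h6 q (s1 q hq).1 y' hy', h10]
          simp
      rw [h8] at h7
      exact h7
    · refine tendsto_of_subseq_tendsto fun e he => ?_
      obtain ⟨φ, hφ, δF, δA, h1, h2, h3, h4, h5, h6⟩ := G e he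
      have he' : Tendsto (fun j => e (φ j)) atTop (𝓝[>] 1) := he.comp hφ.tendsto_atTop
      refine ⟨φ, ?_⟩
      have hmn : Mn atTop fun j => EA K (e (φ j)) := (mnA K).comp he'
      have r := rigid hmn hA hi σ D.hσ (T := fun v => ch ρ (σ v)⁻¹ - t v) D.hT h4 M1 y1'
        (by rw [← h6 ⟨n, χ⟩ hA y hy]; exact h2 ⟨n, χ⟩ hA)
      exact conv r.2.2.1 (evCorr hu D hb) he' r.2.2.2

end

end Pool.Agent.Y139.FD
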